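import Pool.Agent.H741.RS.FinH

/-!
# The least degree of a rational sphere map with a prescribed finite Hermitian source group

`RSM n N`: rational sphere maps `f = p / q` from the unit ball `Bn n` of `ℂⁿ` to that of `ℂ^N`;
`HolAut`: holomorphic automorphisms of the ball; `InSource f γ`: `γ` is in the Hermitian source group of
`f`; `FinU n`: finite groups of unitary `n × n` matrices; `DegsM G`: the degrees of the rational sphere maps
(with any target dimension) with source group `G`. `SepM k G`: every unitary matrix which acts on the
polynomials of degree at most `k` as a linear combination of elements of `G` is in `G`.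
-/

set_option autoImplicit false

namespace Pool.Agent.Results.MP_9c6456_an.LeastDegree

open Pool.Agent.H741.RS

/-- Let `G` be a finite group of unitary `n × n` matrices, `n ≥ 1`, and let `k` be the least number with
`SepM k G`; it exists and `1 ≤ k ≤ |G|`. The least degree of a rational sphere map with source group `G`
is `1 + max 2 k`. For `n = 1` it is `1 + max 2 |G|`. -/
theorem result :
    (∀ n : ℕ, 1 ≤ n → ∀ G : FinU n,
      ∃ k : ℕ, 1 ≤ k ∧ k ≤ G.el.card ∧ IsLeast {k | SepM k G} k ∧ IsLeast (DegsM G) (1 + max 2 k)) ∧
    ∀ G : FinU 1, IsLeast (DegsM G) (1 + max 2 G.el.card) :=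
  ⟨finalM, finalM1⟩

end Pool.Agent.Results.MP_9c6456_an.LeastDegree
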